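import Pool.Agent.Lib.StarCo.Setup

/-!
# The theorem of Graham and Pollak, in the form of bilinear forms
-/

set_option autoImplicit false

namespace Pool.Agent.Lib.StarCo

/-- If the form `∑ j, (p j ⊗ q j + q j ⊗ p j)` is the adjacency matrix of the complete graph on
`ι`, then there are at least `|ι| - 1` pairs. -/
theorem graham_pollak {ι : Type} [Fintype ι] [DecidableEq ι] {r : ℕ} (p q : Fin r → ι → ℚ)
    (h : ∀ x y, ∑ j, (p j x * q j y + p j y * q j x) = if x = y then 0 else 1) :
    Fintype.card ι ≤ r + 1 := by
  classical
  let L : (ι → ℚ) →ₗ[ℚ] (Fin r → ℚ) × ℚ :=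
    { toFun := fun c => (fun j => ∑ x, p j x * c x, ∑ x, c x)
      map_add' := by
        intro c d
        refine Prod.ext (funext fun j => ?_) ?_
        · show ∑ x, p j x * (c x + d x) = ∑ x, p j x * c x + ∑ x, p j x * d x
          rw [← Finset.sum_add_distrib]
          exact Finset.sum_congr rfl fun x _ => mul_add _ _ _
        · show ∑ x, (c x + d x) = ∑ x, c x + ∑ x, d x
          exact Finset.sum_add_distrib
      map_smul' := by
        intro t c
        refine Prod.ext (funext fun j => ?_) ?_
        · show ∑ x, p j x * (t * c x) = t * ∑ x, p j x * c x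
          rw [Finset.mul_sum]
          exact Finset.sum_congr rfl fun x _ => by ring
        · show ∑ x, t * c x = t * ∑ x, c x
          rw [Finset.mul_sum] }
  have hL1 : ∀ c j, (L c).1 j = ∑ x, p j x * c x := fun _ _ => rfl
  have hL2 : ∀ c, (L c).2 = ∑ x, c x := fun _ => rfl
  have hinj : Function.Injective L := by
    rw [injective_iff_map_eq_zero]
    intro c hc
    have h1 : ∀ j, ∑ x, p j x * c x = 0 := by
      intro j
      rw [← hL1, hc]
      rfl
    have h2 : ∑ x, c x = 0 := by
      rw [← hL2, hc]
      rfl
    have h3 : ∑ x, ∑ y, c x * c y * (if x = y then (0 : ℚ) else 1) = 0 := by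
      have e1 : ∀ x y, c x * c y * (if x = y then (0 : ℚ) else 1)
          = ∑ j, (p j x * c x * (q j y * c y) + p j y * c y * (q j x * c x)) := by
        intro x y
        rw [← h x y, Finset.mul_sum]
        refine Finset.sum_congr rfl fun j _ => ?_
        ring
      simp only [e1]
      have e2 : ∀ x, ∑ y, ∑ j, (p j x * c x * (q j y * c y) + p j y * c y * (q j x * c x))
          = ∑ j, (p j x * c x) * ∑ y, q j y * c y := by
        intro x
        rw [Finset.sum_comm]
        refine Finset.sum_congr rfl fun j _ => ?_
        rw [Finset.sum_add_distrib, ← Finset.mul_sum, ← Finset.sum_mul, h1 j, zero_mul, add_zero]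
      simp only [e2]
      rw [Finset.sum_comm]
      refine Finset.sum_eq_zero fun j _ => ?_
      rw [← Finset.sum_mul, h1 j, zero_mul]
    have h4 : ∑ x, ∑ y, c x * c y * (if x = y then (0 : ℚ) else 1)
        = (∑ x, c x) * (∑ y, c y) - ∑ x, c x * c x := by
      rw [Finset.sum_mul_sum, ← Finset.sum_sub_distrib]
      refine Finset.sum_congr rfl fun x _ => ?_
      have e3 : ∀ y, c x * c y * (if x = y then (0 : ℚ) else 1)
          = c x * c y - (if x = y then c x * c y else 0) := by
        intro y
        by_cases hxy : x = y
        · rw [if_pos hxy, if_pos hxy]; ring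
        · rw [if_neg hxy, if_neg hxy]; ring
      simp only [e3]
      rw [Finset.sum_sub_distrib, Finset.sum_ite_eq, if_pos (Finset.mem_univ x)]
    rw [h3, h2] at h4
    have h5 : ∑ x, c x * c x = 0 := by linarith
    rw [Finset.sum_eq_zero_iff_of_nonneg (fun x _ => mul_self_nonneg _)] at h5
    funext x
    exact mul_self_eq_zero.1 (h5 x (Finset.mem_univ x))
  have h6 := LinearMap.finrank_le_finrank_of_injective hinj
  rw [Module.finrank_fintype_fun_eq_card, Module.finrank_prod, Module.finrank_fintype_fun_eq_card,
    Module.finrank_self, Fintype.card_fin] at h6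
  exact h6

end Pool.Agent.Lib.StarCo
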