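import Pool.Agent.Lib.StarCo.Clique

/-!
# Star coordinates and cliques

`StarCoords w i`: the coordinate `i v` has the symbol `0` exactly on the pairs at `v`.
`point_bound` is the bound `N ≥ n + |C| - 1`; `clique_bound` the bound `2 N ≥ 3 n - 3` if the symbol
`1` stands in `i v` exactly on the pairs inside a set `D v`; `tournament_bound` the same bound for
other systems of sets `D v`; `example_even` says that the addressing of `ThreeHalves` is of the kind
of `clique_bound` for even `n`.
-/

set_option autoImplicit false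

namespace Pool.Agent.Lib.StarCo

open Pool.Agent.Results.MP_cec33a_co.ThreeHalves (IsAddressing triangular Sep)

/-- the coordinate `i v` has the symbol `0` exactly on the pairs that contain `v` -/
def StarCoords {n N : ℕ} (w : Ed n → Fin N → Option Bool) (i : Fin n → Fin N) : Prop :=
  ∀ v e, w e (i v) = some false ↔ v ∈ e.1

/-- In a triangle at most one edge has the symbol `1` in the coordinate of the opposite point. -/
theorem at_most_one {n N : ℕ} (w : Ed n → Fin N → Option Bool)
    (hw : IsAddressing (triangular n) N w) (i : Fin n → Fin N)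
    (hi : StarCoords w i) (x y z : Fin n) (hxy : x ≠ y) (hxz : x ≠ z)
    (hyz : y ≠ z) (h1 : w ⟨{y, z}, Finset.card_pair hyz⟩ (i x) = some true)
    (h2 : w ⟨{x, y}, Finset.card_pair hxy⟩ (i z) = some true) : False := by
  have hadj : (triangular n).Adj ⟨{x, y}, Finset.card_pair hxy⟩
      ⟨{y, z}, Finset.card_pair hyz⟩ := by
    have h3 : ({x, y} : Finset (Fin n)) ∩ {y, z} = {y} := by
      ext a
      simp only [Finset.mem_inter, Finset.mem_insert, Finset.mem_singleton]
      constructor
      · rintro ⟨h4 | h4, h5 | h5⟩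
        · exact h5
        · exact absurd (h4.symm.trans h5) hxz
        · exact h4
        · exact absurd (h4.symm.trans h5) hyz
      · intro h4
        exact ⟨Or.inr h4, Or.inl h4⟩
    show (({x, y} : Finset (Fin n)) ∩ {y, z}).card = 1
    rw [h3, Finset.card_singleton]
  have hd := hw ⟨{x, y}, Finset.card_pair hxy⟩ ⟨{y, z}, Finset.card_pair hyz⟩
  rw [SimpleGraph.dist_eq_one_iff_adj.mpr hadj] at hd
  have hx : w ⟨{x, y}, Finset.card_pair hxy⟩ (i x) = some false := (hi x _).mpr (by simp)
  have hz : w ⟨{y, z}, Finset.card_pair hyz⟩ (i z) = some false := (hi z _).mpr (by simp)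
  have hne : i x ≠ i z := by
    intro h
    rw [h, h2] at hx
    simp at hx
  have hsub : ({i x, i z} : Finset (Fin N)) ⊆ Finset.univ.filter fun j : Fin N =>
      Sep (w ⟨{x, y}, Finset.card_pair hxy⟩ j) (w ⟨{y, z}, Finset.card_pair hyz⟩ j) := by
    intro j hj
    rw [Finset.mem_insert, Finset.mem_singleton] at hj
    rw [Finset.mem_filter]
    refine ⟨Finset.mem_univ _, ?_⟩
    rcases hj with rfl | rfl
    · exact Or.inl ⟨hx, h1⟩
    · exact Or.inr ⟨h2, hz⟩
  have h5 := Finset.card_le_card hsub
  rw [Finset.card_pair hne] at h5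
  omega

/-- `N ≥ n + |C| - 1` if for distinct `x, y ∈ C` the pair `{v, y}` does not have the symbol `1` in
the coordinate of `x`. -/
theorem point_bound {n N : ℕ} (hn : 4 ≤ n) (w : Ed n → Fin N → Option Bool)
    (hw : IsAddressing (triangular n) N w) (i : Fin n → Fin N) (hi : StarCoords w i)
    (v : Fin n) (C : Finset (Fin n)) (hv : v ∉ C)
    (hC : ∀ x ∈ C, ∀ y ∈ C, x ≠ y → ∀ e : Ed n, e.1 = {v, y} → w e (i x) ≠ some true) :
    n + C.card ≤ N + 1 := by
  classical
  obtain ⟨hnN, P, Q, hPQ⟩ := setup hn w hw i hi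
  have hne : ∀ x : {x // x ∈ C}, v ≠ x.1 := fun x h => hv (h ▸ x.2)
  let e : {x // x ∈ C} → Ed n := fun x => ⟨{v, x.1}, Finset.card_pair (hne x)⟩
  have hzero : ∀ (x y : {x // x ∈ C}) (u : Fin n),
      (if u ∈ (e x).1 then (1 : ℚ) else 0) * (if w (e y) (i u) = some true then 1 else 0) = 0 := by
    intro x y u
    by_cases hu : u ∈ (e x).1
    · have hu' : u = v ∨ u = x.1 := by
        have : u ∈ ({v, x.1} : Finset (Fin n)) := hu
        simpa using this
      have hnt : w (e y) (i u) ≠ some true := by
        rcases hu' with rfl | rfl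
        · have : w (e y) (i u) = some false := (hi u (e y)).2 (by
            show u ∈ ({u, y.1} : Finset (Fin n))
            simp)
          rw [this]
          simp
        · by_cases hxy : x = y
          · have : w (e y) (i x.1) = some false := (hi x.1 (e y)).2 (by
              show x.1 ∈ ({v, y.1} : Finset (Fin n))
              rw [hxy]
              simp)
            rw [this]
            simp
          · exact hC x.1 x.2 y.1 y.2 (fun h => hxy (Subtype.ext h)) (e y) rfl
      rw [if_neg hnt, mul_zero]
    · rw [if_neg hu, zero_mul]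
  have hGP := graham_pollak (ι := {x // x ∈ C}) (fun j x => P j (e x)) (fun j x => Q j (e x)) (by
    intro x y
    have h1 := hPQ (e x) (e y)
    have h2 : ∑ u, ((if u ∈ (e x).1 then (1 : ℚ) else 0) *
        (if w (e y) (i u) = some true then 1 else 0)
        + (if u ∈ (e y).1 then (1 : ℚ) else 0) * (if w (e x) (i u) = some true then 1 else 0))
        = 0 := Finset.sum_eq_zero fun u _ => by rw [hzero x y u, hzero y x u, add_zero]
    rw [h2, zero_add] at h1
    rw [h1]
    by_cases hxy : x = y
    · rw [if_pos hxy, hxy, Finset.inter_self, (e y).2]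
      norm_num
    · rw [if_neg hxy]
      have h3 : ((e x).1 ∩ (e y).1) = {v} := by
        show ({v, x.1} : Finset (Fin n)) ∩ {v, y.1} = {v}
        ext a
        simp only [Finset.mem_inter, Finset.mem_insert, Finset.mem_singleton]
        constructor
        · rintro ⟨h4 | h4, h5 | h5⟩
          · exact h4
          · exact h4
          · exact h5
          · exact absurd (Subtype.ext (h4.symm.trans h5)) hxy
        · intro h4
          exact ⟨Or.inl h4, Or.inl h4⟩
      rw [h3, Finset.card_singleton]
      norm_num)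
  rw [Fintype.card_coe] at hGP
  omega

/-- `2 N ≥ 3 n - 3` if there are such sets `D v` with `x ∈ D v` or `v ∈ D x` for all `x ≠ v`. -/
theorem tournament_bound {n N : ℕ} (hn : 4 ≤ n) (w : Ed n → Fin N → Option Bool)
    (hw : IsAddressing (triangular n) N w) (i : Fin n → Fin N) (hi : StarCoords w i)
    (D : Fin n → Finset (Fin n)) (hv : ∀ v, v ∉ D v)
    (hD : ∀ v, ∀ x ∈ D v, ∀ y ∈ D v, x ≠ y → ∀ e : Ed n, e.1 = {v, y} → w e (i x) ≠ some true)
    (hT : ∀ x v, x ≠ v → x ∈ D v ∨ v ∈ D x) :
    3 * n ≤ 2 * N + 3 := by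
  classical
  have h1 : ∀ v, n + (D v).card ≤ N + 1 := fun v =>
    point_bound hn w hw i hi v (D v) (hv v) (hD v)
  by_contra hcon
  push Not at hcon
  have h2 : ∀ v, 2 * (D v).card + 2 ≤ n := by
    intro v
    have := h1 v
    omega
  have h3 : ∑ v : Fin n, (2 * (D v).card + 2) ≤ ∑ _v : Fin n, n :=
    Finset.sum_le_sum fun v _ => h2 v
  have h4 : ∀ v : Fin n, (D v).card = ∑ x : Fin n, if x ∈ D v then 1 else 0 := by
    intro v
    rw [Finset.sum_boole, Finset.filter_mem_eq_inter, Finset.univ_inter]
    rfl
  have h5 : n * (n - 1) ≤ ∑ v : Fin n, 2 * (D v).card := by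
    have e1 : ∑ v : Fin n, 2 * (D v).card
        = ∑ v : Fin n, ∑ x : Fin n, ((if x ∈ D v then 1 else 0) + (if v ∈ D x then 1 else 0)) := by
      have e2 : ∑ v : Fin n, ∑ x : Fin n, (if v ∈ D x then 1 else 0)
          = ∑ v : Fin n, (D v).card := by
        rw [Finset.sum_comm]
        exact Finset.sum_congr rfl fun v _ => (h4 v).symm
      have e3 : ∑ v : Fin n, ∑ x : Fin n, (if x ∈ D v then 1 else 0)
          = ∑ v : Fin n, (D v).card := Finset.sum_congr rfl fun v _ => (h4 v).symm
      simp only [Finset.sum_add_distrib]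
      rw [e2, e3, ← Finset.mul_sum]
      omega
    rw [e1]
    have e4 : ∀ v : Fin n, n - 1 ≤
        ∑ x : Fin n, ((if x ∈ D v then 1 else 0) + (if v ∈ D x then 1 else 0)) := by
      intro v
      calc n - 1 = ∑ _x ∈ Finset.univ.erase v, 1 := by
            rw [Finset.sum_const, smul_eq_mul, mul_one, Finset.card_erase_of_mem
              (Finset.mem_univ v), Finset.card_univ, Fintype.card_fin]
        _ ≤ ∑ x ∈ Finset.univ.erase v,
              ((if x ∈ D v then 1 else 0) + (if v ∈ D x then 1 else 0)) := by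
            refine Finset.sum_le_sum fun x hx => ?_
            rcases hT x v (Finset.ne_of_mem_erase hx) with h | h
            · rw [if_pos h]
              omega
            · rw [if_pos h]
              omega
        _ ≤ _ := Finset.sum_le_sum_of_subset (Finset.erase_subset _ _)
    calc n * (n - 1) = ∑ _v : Fin n, (n - 1) := by
          rw [Finset.sum_const, Finset.card_univ, Fintype.card_fin, smul_eq_mul]
      _ ≤ _ := Finset.sum_le_sum fun v _ => e4 v
  rw [Finset.sum_add_distrib, Finset.sum_const, Finset.sum_const, Finset.card_univ,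
    Fintype.card_fin, smul_eq_mul, smul_eq_mul] at h3
  obtain ⟨m, rfl⟩ : ∃ m, n = m + 1 := ⟨n - 1, by omega⟩
  rw [Nat.add_sub_cancel] at h5
  nlinarith

/-- The case in which all pairs inside `D v` have the symbol `1` in the coordinate of `v`. -/
theorem tournament_bound_of_clique {n N : ℕ} (hn : 4 ≤ n) (w : Ed n → Fin N → Option Bool)
    (hw : IsAddressing (triangular n) N w) (i : Fin n → Fin N) (hi : StarCoords w i)
    (D : Fin n → Finset (Fin n)) (hv : ∀ v, v ∉ D v)
    (hD : ∀ v, ∀ x ∈ D v, ∀ y ∈ D v, x ≠ y → ∀ e : Ed n, e.1 = {x, y} → w e (i v) = some true)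
    (hT : ∀ x v, x ≠ v → x ∈ D v ∨ v ∈ D x) :
    3 * n ≤ 2 * N + 3 := by
  refine tournament_bound hn w hw i hi D hv ?_ hT
  intro v x hx y hy hxy e he h
  have hvx : v ≠ x := fun h' => hv v (h' ▸ hx)
  have hvy : v ≠ y := fun h' => hv v (h' ▸ hy)
  refine at_most_one w hw i hi v y x hvy hvx (Ne.symm hxy) ?_ ?_
  · exact hD v y hy x hx (Ne.symm hxy) _ rfl
  · have : (⟨{v, y}, Finset.card_pair hvy⟩ : Ed n) = e := Subtype.ext he.symm
    rw [this]
    exact h

/-- The bound `2 N ≥ 3 n - 3` if for every `v` the symbol `1` stands in the coordinate of `v` exactly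
on the pairs inside a set `D v`. -/
theorem clique_bound {n N : ℕ} (hn : 4 ≤ n) (w : Ed n → Fin N → Option Bool)
    (hw : IsAddressing (triangular n) N w) (i : Fin n → Fin N) (D : Fin n → Finset (Fin n))
    (hv : ∀ v, v ∉ D v) (hi : StarCoords w i)
    (hD : ∀ v e, w e (i v) = some true ↔ e.1 ⊆ D v) :
    3 * n ≤ 2 * N + 3 := by
  classical
  let C : Fin n → Finset (Fin n) := fun v => Finset.univ.filter fun x => x ≠ v ∧ v ∉ D x
  have h1 : ∀ v, n + (D v).card ≤ N + 1 := by
    intro v
    refine point_bound hn w hw i hi v (D v) (hv v) ?_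
    intro x hx y hy hxy e he h
    have hvx : v ≠ x := fun h' => hv v (h' ▸ hx)
    have hvy : v ≠ y := fun h' => hv v (h' ▸ hy)
    refine at_most_one w hw i hi v y x hvy hvx (Ne.symm hxy) ?_ ?_
    · refine (hD v _).2 ?_
      intro z hz
      have hz' : z = y ∨ z = x := by
        have : z ∈ ({y, x} : Finset (Fin n)) := hz
        simpa using this
      rcases hz' with rfl | rfl
      · exact hy
      · exact hx
    · have : (⟨{v, y}, Finset.card_pair hvy⟩ : Ed n) = e := Subtype.ext he.symm
      rw [this]
      exact h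
  have h2 : ∀ v, n + (C v).card ≤ N + 1 := by
    intro v
    refine point_bound hn w hw i hi v (C v) (by simp [C]) ?_
    intro x hx y hy hxy e he h
    have hx' : v ∉ D x := by
      have := (Finset.mem_filter.1 hx).2
      exact this.2
    exact hx' ((hD x e).1 h (by rw [he]; simp))
  by_contra hcon
  push Not at hcon
  have h3 : ∀ v, (D v).card + (C v).card + 2 ≤ n := by
    intro v
    have a1 := h1 v
    have a2 := h2 v
    omega
  have h4 : ∀ v : Fin n, (D v).card = ∑ x : Fin n, if x ∈ D v then 1 else 0 := by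
    intro v
    rw [Finset.sum_boole, Finset.filter_mem_eq_inter, Finset.univ_inter]
    rfl
  have h5 : ∀ v : Fin n, (C v).card = ∑ x : Fin n, if x ≠ v ∧ v ∉ D x then 1 else 0 := by
    intro v
    rw [Finset.sum_boole]
    rfl
  have h6 : n * (n - 1) ≤ ∑ v : Fin n, ((D v).card + (C v).card) := by
    have e1 : ∑ v : Fin n, ((D v).card + (C v).card)
        = ∑ v : Fin n, ∑ x : Fin n,
          ((if v ∈ D x then 1 else 0) + (if x ≠ v ∧ v ∉ D x then 1 else 0)) := by
      simp only [Finset.sum_add_distrib]
      congr 1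
      · rw [Finset.sum_congr rfl fun v _ => h4 v, Finset.sum_comm]
      · exact Finset.sum_congr rfl fun v _ => h5 v
    rw [e1]
    have e2 : ∀ v : Fin n, n - 1 ≤ ∑ x : Fin n,
        ((if v ∈ D x then 1 else 0) + (if x ≠ v ∧ v ∉ D x then 1 else 0)) := by
      intro v
      calc n - 1 = ∑ _x ∈ Finset.univ.erase v, 1 := by
            rw [Finset.sum_const, smul_eq_mul, mul_one, Finset.card_erase_of_mem
              (Finset.mem_univ v), Finset.card_univ, Fintype.card_fin]
        _ ≤ ∑ x ∈ Finset.univ.erase v,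
              ((if v ∈ D x then 1 else 0) + (if x ≠ v ∧ v ∉ D x then 1 else 0)) := by
            refine Finset.sum_le_sum fun x hx => ?_
            by_cases h : v ∈ D x
            · rw [if_pos h]
              omega
            · rw [if_neg h, if_pos ⟨Finset.ne_of_mem_erase hx, h⟩]
        _ ≤ _ := Finset.sum_le_sum_of_subset (Finset.erase_subset _ _)
    calc n * (n - 1) = ∑ _v : Fin n, (n - 1) := by
          rw [Finset.sum_const, Finset.card_univ, Fintype.card_fin, smul_eq_mul]
      _ ≤ _ := Finset.sum_le_sum fun v _ => e2 v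
  have h7 : ∑ v : Fin n, ((D v).card + (C v).card + 2) ≤ ∑ _v : Fin n, n :=
    Finset.sum_le_sum fun v _ => h3 v
  rw [Finset.sum_add_distrib, Finset.sum_const, Finset.sum_const, Finset.card_univ,
    Fintype.card_fin, smul_eq_mul, smul_eq_mul] at h7
  obtain ⟨m, rfl⟩ : ∃ m, n = m + 1 := ⟨n - 1, by omega⟩
  rw [Nat.add_sub_cancel] at h6
  nlinarith

open Pool.Agent.Results.MP_cec33a_co.ThreeHalves in
/-- For even `n` the addressing of `ThreeHalves` (of length `3 n / 2`) is of this kind, and any two
points `x ≠ v` satisfy `x ∈ D v` or `v ∈ D x`. -/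
theorem example_even (k : ℕ) : ∃ (w : Ed (2 * k) → Fin (3 * k) → Option Bool)
    (i : Fin (2 * k) → Fin (3 * k)) (D : Fin (2 * k) → Finset (Fin (2 * k))),
    IsAddressing (triangular (2 * k)) (3 * k) w ∧ (∀ v, v ∉ D v) ∧ StarCoords w i ∧
    (∀ v e, w e (i v) = some true ↔ e.1 ⊆ D v) ∧
    (∀ x v, x ≠ v → x ∈ D v ∨ v ∈ D x) := by
  classical
  refine ⟨fun s j => wE k (lo s.1) (hi s.1) j.val, fun v => ⟨v.1, by have := v.2; omega⟩,
    fun v => Finset.univ.filter fun x => imp k x.1 v.1, ?_, ?_, ?_, ?_, ?_⟩
  · refine card_sep (wE k) ?_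
    intro a b c d hab hb hcd hd
    exact sum_E k a b c d hab (by omega) hcd (by omega)
  · intro v hv
    rw [Finset.mem_filter] at hv
    have := hv.2
    unfold imp at this
    omega
  · intro v e
    obtain ⟨a, b, hab, hs, h1, h2⟩ := exists_pair e
    show wE k (lo e.1) (hi e.1) v.1 = some false ↔ v ∈ e.1
    rw [h1, h2, wE_star k _ _ _ v.2, hs]
    simp only [Finset.mem_insert, Finset.mem_singleton, Fin.ext_iff]
    by_cases h : v.1 = a.1 ∨ v.1 = b.1
    · rw [if_pos h]
      simp [h]
    · rw [if_neg h]
      constructor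
      · intro h3
        split_ifs at h3
        · simp at h3
      · intro h3
        exact absurd h3 h
  · intro v e
    obtain ⟨a, b, hab, hs, h1, h2⟩ := exists_pair e
    show wE k (lo e.1) (hi e.1) v.1 = some true ↔ e.1 ⊆ _
    rw [h1, h2, wE_star k _ _ _ v.2, hs]
    have hsub : ({a, b} : Finset (Fin (2 * k))) ⊆ Finset.univ.filter (fun x => imp k x.1 v.1) ↔
        imp k a.1 v.1 ∧ imp k b.1 v.1 := by
      rw [Finset.insert_subset_iff, Finset.singleton_subset_iff]
      simp
    rw [hsub]
    by_cases h : v.1 = a.1 ∨ v.1 = b.1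
    · rw [if_pos h]
      constructor
      · intro h3
        simp at h3
      · rintro ⟨h3, h4⟩
        unfold imp at h3 h4
        omega
    · rw [if_neg h]
      constructor
      · intro h3
        split_ifs at h3 with h4
        · exact h4
      · intro h3
        rw [if_pos h3]
  · intro x v hxv
    have hxv' : x.1 ≠ v.1 := fun h => hxv (Fin.ext h)
    have hx := x.2
    have hv := v.2
    simp only [Finset.mem_filter, Finset.mem_univ, true_and]
    unfold imp
    omega

end Pool.Agent.Lib.StarCo
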