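import Pool.Agent.Lib.StarCo.Setup

/-!
# The two spaces of pairs
-/

set_option autoImplicit false

namespace Pool.Agent.Lib.StarCo

/-- PROOF. `B` = all pairs `(d, ω)` with `Σ_v d_v T v f = Σ_{a ∈ f} ω_a` for all `f` (`ω` is
determined by `d` as `3 ≤ n`). For `z : Ed n → ℚ` let `s_v z = Σ_e [v ∈ e] z_e`,
`θ_v z = Σ_e T v e z_e`, `S z = Σ_e z_e`; `Σ_v s_v = 2 S`. `K` = the `z` with
`Σ_e P j e z_e = Σ_e Q j e z_e = 0` for all `j`; `|E| ≤ dim K + 2 r`. Multiplying `h e f` by `z_e`
and summing over `e`: for `z ∈ K`, `(s z, S - s_v z - θ_v z) ∈ B`; `A` = the image of `K` under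
this linear map. For `(d', ω') ∈ B`: multiply its relation for `e` by `z_e` and sum:
`Σ d'_v θ_v = Σ ω'_a s_a`; with `θ = S - s - ω` this is the third claim.
Dimension: `z ∈ K` with image `0` has `s z = 0` and `θ z = 0`; the map
`z ↦ (s z, θ z)` has rank `≥ 2 n - dim B`, because a functional `(α, d)` that vanishes on its
range is a pair `(d, -α) ∈ B`. So `dim A ≥ (|E| - 2 r) - (|E| - 2 n + dim B)`. -/
theorem dims {n r : ℕ} (hn : 3 ≤ n) (T : Fin n → Ed n → ℚ) (P Q : Fin r → Ed n → ℚ)
    (h : ∀ e f : Ed n,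
      ∑ v, ((if v ∈ e.1 then (1 : ℚ) else 0) * T v f + (if v ∈ f.1 then (1 : ℚ) else 0) * T v e)
        + ∑ j, (P j e * Q j f + P j f * Q j e) = 2 - ((e.1 ∩ f.1).card : ℚ)) :
    ∃ A B : Submodule ℚ (Fin n ⊕ Fin n → ℚ),
      (∀ x ∈ A, ∀ f : Ed n, ∑ v, x (Sum.inl v) * T v f = ∑ a ∈ f.1, x (Sum.inr a)) ∧
      (∀ x ∈ B, ∀ f : Ed n, ∑ v, x (Sum.inl v) * T v f = ∑ a ∈ f.1, x (Sum.inr a)) ∧
      (∀ x ∈ A, ∀ y ∈ B, ∑ v, x (Sum.inl v) * y (Sum.inl v)
        + ∑ v, (y (Sum.inl v) * x (Sum.inr v) + x (Sum.inl v) * y (Sum.inr v))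
        = (∑ v, x (Sum.inl v)) * (∑ v, y (Sum.inl v)) / 2) ∧
      2 * n ≤ Module.finrank ℚ A + Module.finrank ℚ B + 2 * r := by
  classical
  -- indicator
  let c : Fin n → Ed n → ℚ := fun v e => if v ∈ e.1 then 1 else 0
  have hc2 : ∀ e : Ed n, ∑ v, c v e = 2 := by
    intro e
    simp only [c, Finset.sum_ite_mem, Finset.univ_inter, Finset.sum_const, nsmul_eq_mul, mul_one, e.2]
    norm_num
  have hcsum : ∀ (f : Ed n) (g : Fin n → ℚ), ∑ v, c v f * g v = ∑ a ∈ f.1, g a := by
    intro f g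
    simp only [c, ite_mul, one_mul, zero_mul, Finset.sum_ite_mem, Finset.univ_inter]
  have hcc : ∀ e f : Ed n, ((e.1 ∩ f.1).card : ℚ) = ∑ v, c v e * c v f := by
    intro e f
    have h1 : ∀ v, c v e * c v f = if v ∈ e.1 ∩ f.1 then 1 else 0 := by
      intro v
      simp only [c, Finset.mem_inter]
      split_ifs <;> simp_all
    simp only [h1, Finset.sum_ite_mem, Finset.univ_inter, Finset.sum_const, nsmul_eq_mul, mul_one]
  let Nm : Matrix (Ed n) (Fin n ⊕ Fin n) ℚ :=
    Matrix.of fun f x => Sum.elim (fun v => T v f) (fun a => - c a f) x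
  let Lm : Matrix (Fin n ⊕ Fin n) (Ed n) ℚ :=
    Matrix.of fun x e => Sum.elim (fun v => c v e) (fun v => 1 - c v e - T v e) x
  let Km : Matrix (Fin r ⊕ Fin r) (Ed n) ℚ :=
    Matrix.of fun x e => Sum.elim (fun j => P j e) (fun j => Q j e) x
  have hN : ∀ x : Fin n ⊕ Fin n → ℚ, x ∈ LinearMap.ker Nm.mulVecLin ↔
      ∀ f : Ed n, ∑ v, x (Sum.inl v) * T v f = ∑ a ∈ f.1, x (Sum.inr a) := by
    intro x
    rw [LinearMap.mem_ker, Matrix.mulVecLin_apply, funext_iff]
    refine forall_congr' fun f => ?_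
    have e : (Nm.mulVec x) f = ∑ v, x (Sum.inl v) * T v f - ∑ a ∈ f.1, x (Sum.inr a) := by
      rw [← hcsum]
      simp only [Matrix.mulVec, dotProduct, Nm, Matrix.of_apply, Fintype.sum_sum_type,
        Sum.elim_inl, Sum.elim_inr]
      rw [sub_eq_add_neg, ← Finset.sum_neg_distrib]
      congr 1
      · exact Finset.sum_congr rfl fun v _ => mul_comm _ _
      · exact Finset.sum_congr rfl fun v _ => by ring
    rw [e, Pi.zero_apply, sub_eq_zero]
  have hL1 : ∀ (z : Ed n → ℚ) (v : Fin n), (Lm.mulVec z) (Sum.inl v) = ∑ e, c v e * z e := by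
    intro z v
    simp [Matrix.mulVec, dotProduct, Lm]
  have hL2 : ∀ (z : Ed n → ℚ) (v : Fin n), (Lm.mulVec z) (Sum.inr v) =
      ∑ e, z e - ∑ e, c v e * z e - ∑ e, T v e * z e := by
    intro z v
    simp only [Matrix.mulVec, dotProduct, Lm, Matrix.of_apply, Sum.elim_inr]
    rw [← Finset.sum_sub_distrib, ← Finset.sum_sub_distrib]
    exact Finset.sum_congr rfl fun e _ => by ring
  have hK : ∀ z : Ed n → ℚ, z ∈ LinearMap.ker Km.mulVecLin →
      (∀ j, ∑ e, P j e * z e = 0) ∧ (∀ j, ∑ e, Q j e * z e = 0) := by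
    intro z hz
    rw [LinearMap.mem_ker, Matrix.mulVecLin_apply, funext_iff] at hz
    refine ⟨fun j => ?_, fun j => ?_⟩
    · have := hz (Sum.inl j)
      simpa [Matrix.mulVec, dotProduct, Km] using this
    · have := hz (Sum.inr j)
      simpa [Matrix.mulVec, dotProduct, Km] using this
  -- the sum of all s_v is twice S
  have hS : ∀ z : Ed n → ℚ, ∑ v, ∑ e, c v e * z e = 2 * ∑ e, z e := by
    intro z
    rw [Finset.sum_comm, Finset.mul_sum]
    refine Finset.sum_congr rfl fun e _ => ?_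
    rw [← Finset.sum_mul, hc2]
  refine ⟨(LinearMap.ker Km.mulVecLin).map Lm.mulVecLin, LinearMap.ker Nm.mulVecLin, ?_,
    fun x hx => (hN x).1 hx, ?_, ?_⟩
  · rintro _ ⟨z, hz, rfl⟩ f
    obtain ⟨hP, hQ⟩ := hK z hz
    simp only [Matrix.mulVecLin_apply]
    simp only [hL1, hL2]
    have h1 : ∑ e, (∑ v, (c v e * T v f + c v f * T v e)
        + ∑ j, (P j e * Q j f + P j f * Q j e)) * z e = ∑ e, (2 - ∑ v, c v e * c v f) * z e := by
      refine Finset.sum_congr rfl fun e _ => ?_
      rw [← hcc]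
      rw [h e f]
    have h2 : ∑ e, (∑ v, (c v e * T v f + c v f * T v e)
        + ∑ j, (P j e * Q j f + P j f * Q j e)) * z e =
        ∑ v, (∑ e, c v e * z e) * T v f + ∑ v, c v f * (∑ e, T v e * z e) := by
      have h3 : ∑ e, (∑ j, (P j e * Q j f + P j f * Q j e)) * z e = 0 := by
        have : ∑ e, (∑ j, (P j e * Q j f + P j f * Q j e)) * z e =
            ∑ j, ((∑ e, P j e * z e) * Q j f + P j f * ∑ e, Q j e * z e) := by
          simp only [Finset.sum_mul, Finset.mul_sum]
          rw [Finset.sum_comm]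
          refine Finset.sum_congr rfl fun j _ => ?_
          rw [← Finset.sum_add_distrib]
          exact Finset.sum_congr rfl fun e _ => by ring
        rw [this]
        simp [hP, hQ]
      have h4 : ∑ e, (∑ v, (c v e * T v f + c v f * T v e)) * z e =
          ∑ v, (∑ e, c v e * z e) * T v f + ∑ v, c v f * (∑ e, T v e * z e) := by
        simp only [Finset.sum_mul, Finset.mul_sum]
        rw [Finset.sum_comm, ← Finset.sum_add_distrib]
        refine Finset.sum_congr rfl fun v _ => ?_
        rw [← Finset.sum_add_distrib]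
        exact Finset.sum_congr rfl fun e _ => by ring
      rw [← h4, ← add_zero (∑ e, (∑ v, (c v e * T v f + c v f * T v e)) * z e), ← h3,
        ← Finset.sum_add_distrib]
      exact Finset.sum_congr rfl fun e _ => by ring
    have h5 : ∑ e, (2 - ∑ v, c v e * c v f) * z e =
        2 * ∑ e, z e - ∑ v, c v f * ∑ e, c v e * z e := by
      have h6 : ∑ v, c v f * ∑ e, c v e * z e = ∑ e, (∑ v, c v e * c v f) * z e := by
        simp only [Finset.sum_mul, Finset.mul_sum]
        rw [Finset.sum_comm]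
        exact Finset.sum_congr rfl fun e _ => Finset.sum_congr rfl fun v _ => by ring
      rw [h6, Finset.mul_sum, ← Finset.sum_sub_distrib]
      exact Finset.sum_congr rfl fun e _ => by ring
    have h7 : ∑ a ∈ f.1, (∑ e, z e - ∑ e, c a e * z e - ∑ e, T a e * z e) =
        2 * ∑ e, z e - ∑ v, c v f * ∑ e, c v e * z e - ∑ v, c v f * ∑ e, T v e * z e := by
      rw [← hcsum f fun a => (∑ e, z e - ∑ e, c a e * z e - ∑ e, T a e * z e), ← hc2 f,
        Finset.sum_mul, ← Finset.sum_sub_distrib, ← Finset.sum_sub_distrib]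
      exact Finset.sum_congr rfl fun v _ => by ring
    rw [h7]
    linarith
  · rintro _ ⟨z, hz, rfl⟩ y hy
    rw [hN] at hy
    simp only [Matrix.mulVecLin_apply]
    simp only [hL1, hL2]
    rw [hS]
    have h1 : ∑ v, y (Sum.inl v) * ∑ e, T v e * z e = ∑ v, (∑ e, c v e * z e) * y (Sum.inr v) := by
      have h2 : ∑ v, y (Sum.inl v) * ∑ e, T v e * z e =
          ∑ e, (∑ v, y (Sum.inl v) * T v e) * z e := by
        simp only [Finset.sum_mul, Finset.mul_sum]
        rw [Finset.sum_comm]
        exact Finset.sum_congr rfl fun e _ => Finset.sum_congr rfl fun v _ => by ring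
      rw [h2]
      simp only [hy]
      simp only [← hcsum, Finset.sum_mul]
      rw [Finset.sum_comm]
      exact Finset.sum_congr rfl fun v _ => Finset.sum_congr rfl fun e _ => by ring
    have h3 : ∑ v, (y (Sum.inl v) * (∑ e, z e - ∑ e, c v e * z e - ∑ e, T v e * z e) +
        (∑ e, c v e * z e) * y (Sum.inr v)) =
        (∑ v, y (Sum.inl v)) * (∑ e, z e) - ∑ v, (∑ e, c v e * z e) * y (Sum.inl v)
          - ∑ v, y (Sum.inl v) * ∑ e, T v e * z e + ∑ v, (∑ e, c v e * z e) * y (Sum.inr v) := by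
      rw [Finset.sum_mul, ← Finset.sum_sub_distrib, ← Finset.sum_sub_distrib,
        ← Finset.sum_add_distrib]
      exact Finset.sum_congr rfl fun v _ => by ring
    rw [h3, h1]
    ring
  · -- dimensions
    have hker : LinearMap.ker Lm.mulVecLin ≤ LinearMap.ker Nm.transpose.mulVecLin := by
      intro z hz
      rw [LinearMap.mem_ker, Matrix.mulVecLin_apply] at hz ⊢
      have h1 : ∀ v, ∑ e, c v e * z e = 0 := fun v => by rw [← hL1, hz]; rfl
      have h2 : ∑ e, z e = 0 := by
        have := hS z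
        simp only [h1, Finset.sum_const_zero] at this
        linarith
      have h3 : ∀ v, ∑ e, T v e * z e = 0 := by
        intro v
        have := hL2 z v
        rw [hz, h1, h2] at this
        simpa using this.symm
      funext x
      rcases x with v | v
      · simpa [Matrix.mulVec, dotProduct, Nm] using h3 v
      · simpa [Matrix.mulVec, dotProduct, Nm] using h1 v
    have e1 := LinearMap.finrank_range_add_finrank_ker Nm.mulVecLin
    have e2 := LinearMap.finrank_range_add_finrank_ker Nm.transpose.mulVecLin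
    have e3 : Module.finrank ℚ (LinearMap.range Nm.transpose.mulVecLin) =
        Module.finrank ℚ (LinearMap.range Nm.mulVecLin) := Matrix.rank_transpose Nm
    have e4 := LinearMap.finrank_range_add_finrank_ker Km.mulVecLin
    have e5 : Module.finrank ℚ (LinearMap.range Km.mulVecLin) ≤ 2 * r := by
      refine (Submodule.finrank_le _).trans ?_
      simp [two_mul]
    have e6 := LinearMap.finrank_range_add_finrank_ker
      (Lm.mulVecLin.domRestrict (LinearMap.ker Km.mulVecLin))
    rw [LinearMap.range_domRestrict] at e6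
    have e7 : Module.finrank ℚ
        (LinearMap.ker (Lm.mulVecLin.domRestrict (LinearMap.ker Km.mulVecLin))) ≤
        Module.finrank ℚ (LinearMap.ker Nm.transpose.mulVecLin) := by
      rw [← Submodule.finrank_map_subtype_eq]
      refine Submodule.finrank_mono ?_
      rintro _ ⟨z, hz, rfl⟩
      refine hker ?_
      rw [SetLike.mem_coe, LinearMap.mem_ker, LinearMap.domRestrict_apply] at hz
      exact hz
    have e8 : Module.finrank ℚ (Fin n ⊕ Fin n → ℚ) = 2 * n := by
      simp [two_mul]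
    rw [e8] at e1
    omega

end Pool.Agent.Lib.StarCo
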