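import Mathlib
import Pool.Agent.Lib.CecStar.Lattice

/-!
# Linear algebra over the field with two elements
-/

set_option autoImplicit false

namespace Pool.Agent.Lib.StarCo

/-- PROOF: intersect with `Σ_v x (inl v) = 0` (lose at most 1) and project to the left half: the
kernel has dimension at most 1 by `hk`. -/
theorem proj {n : ℕ} (R : Submodule (ZMod 2) (Fin n ⊕ Fin n → ZMod 2))
    (hk : ∀ x ∈ R, (∀ v, x (Sum.inl v) = 0) → ∀ a b, x (Sum.inr a) = x (Sum.inr b)) :
    ∃ C : Submodule (ZMod 2) (Fin n → ZMod 2),
      (∀ c ∈ C, ∃ x ∈ R, (∀ v, x (Sum.inl v) = c v) ∧ ∑ v, x (Sum.inl v) = 0) ∧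
      Module.finrank (ZMod 2) R ≤ Module.finrank (ZMod 2) C + 2 := by
  classical
  -- the functional and the projection
  let s : R →ₗ[ZMod 2] ZMod 2 :=
    { toFun := fun x => ∑ v, x.1 (Sum.inl v)
      map_add' := fun x y => by simp [Finset.sum_add_distrib]
      map_smul' := fun c x => by simp [Finset.mul_sum] }
  let π : (LinearMap.ker s) →ₗ[ZMod 2] (Fin n → ZMod 2) :=
    { toFun := fun x v => x.1.1 (Sum.inl v)
      map_add' := fun x y => by funext v; simp
      map_smul' := fun c x => by funext v; simp }
  refine ⟨LinearMap.range π, ?_, ?_⟩
  · rintro c ⟨x, rfl⟩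
    exact ⟨x.1.1, x.1.2, fun v => rfl, LinearMap.mem_ker.1 x.2⟩
  · have h1 := LinearMap.finrank_range_add_finrank_ker s
    have h2 := LinearMap.finrank_range_add_finrank_ker π
    have h3 : Module.finrank (ZMod 2) (LinearMap.range s) ≤ 1 := by
      refine (Submodule.finrank_le _).trans (le_of_eq ?_)
      exact Module.finrank_self _
    have h4 : Module.finrank (ZMod 2) (LinearMap.ker π) ≤ 1 := by
      -- every element of the kernel is determined by one value on the right half
      rcases n with _ | n
      · have : Subsingleton (LinearMap.ker π) := by
          constructor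
          intro x y
          apply Subtype.ext
          apply Subtype.ext
          apply Subtype.ext
          funext i
          rcases i with i | i <;> exact i.elim0
        rw [Module.finrank_zero_of_subsingleton]
        exact zero_le_one
      · let ε : (LinearMap.ker π) →ₗ[ZMod 2] ZMod 2 :=
          { toFun := fun x => x.1.1.1 (Sum.inr 0)
            map_add' := fun x y => by simp
            map_smul' := fun c x => by simp }
        have hε : Function.Injective ε := by
          rw [injective_iff_map_eq_zero]
          intro x hx
          apply Subtype.ext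
          apply Subtype.ext
          apply Subtype.ext
          have hl : ∀ v, x.1.1.1 (Sum.inl v) = 0 := fun v =>
            congrFun (LinearMap.mem_ker.1 x.2) v
          have hr := hk x.1.1.1 x.1.1.2 hl
          funext i
          rcases i with i | i
          · exact hl i
          · rw [hr i 0]
            exact hx
        have := LinearMap.finrank_le_finrank_of_injective hε
        rwa [Module.finrank_self] at this
    omega

/-- two orthogonal subspaces. -/
theorem orth {n : ℕ} (C C' : Submodule (ZMod 2) (Fin n → ZMod 2))
    (h : ∀ c ∈ C, ∀ c' ∈ C', ∑ v, c v * c' v = 0) :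
    Module.finrank (ZMod 2) C + Module.finrank (ZMod 2) C' ≤ n := by
  have := Pool.Agent.Lib.CecStar.finrank_add_le_of_dot C C' h
  simpa using this

end Pool.Agent.Lib.StarCo
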