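import Mathlib

/-!
# The parity identity
-/

set_option autoImplicit false

namespace Pool.Agent.Lib.StarCo

/-- sums over a point and a pair as sums over triples. -/
theorem sum_triple {n : ℕ} (F : Fin n → Fin n → Fin n → ZMod 2) (h1 : ∀ u b, F u u b = 0)
    (h2 : ∀ u a, F u a u = 0) :
    ∑ u, ∑ a, ∑ b, (if a < b then F u a b else 0)
      = ∑ x, ∑ y, ∑ z, (if x < y ∧ y < z then F x y z + F y x z + F z x y else 0) := by
  have e1 : ∀ u a b : Fin n, (if a < b then F u a b else 0)
      = (if u < a ∧ a < b then F u a b else 0) + (if a < u ∧ u < b then F u a b else 0)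
        + (if a < b ∧ b < u then F u a b else 0) := by
    intro u a b
    rcases lt_trichotomy u a with h | h | h
    · by_cases hab : a < b
      · have h3 : ¬ (a < u) := not_lt.2 h.le
        have h4 : ¬ (b < u) := not_lt.2 (h.trans hab).le
        simp [h, hab, h3, h4]
      · have h3 : ¬ (a < u) := not_lt.2 h.le
        simp [hab, h3]
    · subst h
      simp [h1]
    · rcases lt_trichotomy u b with h' | h' | h'
      · have h3 : a < b := h.trans h'
        have h4 : ¬ (u < a) := not_lt.2 h.le
        have h5 : ¬ (b < u) := not_lt.2 h'.le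
        simp [h, h', h3, h4, h5]
      · subst h'
        simp [h2]
      · by_cases hab : a < b
        · have h4 : ¬ (u < a) := not_lt.2 h.le
          have h5 : ¬ (u < b) := not_lt.2 h'.le
          simp [h', hab, h4, h5]
        · have h5 : ¬ (u < b) := not_lt.2 h'.le
          simp [hab, h5]
  have e2 : ∀ x y z : Fin n, (if x < y ∧ y < z then F x y z + F y x z + F z x y else 0)
      = (if x < y ∧ y < z then F x y z else 0) + (if x < y ∧ y < z then F y x z else 0)
        + (if x < y ∧ y < z then F z x y else 0) := by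
    intro x y z
    split_ifs <;> simp
  simp only [e1, e2, Finset.sum_add_distrib]
  congr 1
  · congr 1
    exact Finset.sum_comm
  · rw [Finset.sum_comm]
    refine Finset.sum_congr rfl fun a _ => ?_
    exact Finset.sum_comm

/-- symmetrised sums over pairs. -/
theorem sum_pair {n : ℕ} (f : Fin n → Fin n → ZMod 2) :
    ∑ a, ∑ b, (if a < b then f a b + f b a else 0)
      = ∑ a, ∑ b, f a b - ∑ a, f a a := by
  have e1 : ∀ a b : Fin n, (if a < b then f a b + f b a else 0)
      = (if a < b then f a b else 0) + (if a < b then f b a else 0) := by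
    intro a b
    split_ifs <;> simp
  have e2 : ∀ a b : Fin n, f a b = (if a < b then f a b else 0) + (if b < a then f a b else 0)
      + (if a = b then f a b else 0) := by
    intro a b
    rcases lt_trichotomy a b with h | h | h
    · simp [h, not_lt.2 h.le, h.ne]
    · subst h; simp
    · simp [h, not_lt.2 h.le, h.ne']
  have e3 : ∑ a, ∑ b, f a b = ∑ a, ∑ b, (if a < b then f a b else 0)
      + ∑ a, ∑ b, (if b < a then f a b else 0) + ∑ a, ∑ b, (if a = b then f a b else 0) := by
    rw [← Finset.sum_add_distrib, ← Finset.sum_add_distrib]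
    refine Finset.sum_congr rfl fun a _ => ?_
    rw [← Finset.sum_add_distrib, ← Finset.sum_add_distrib]
    exact Finset.sum_congr rfl fun b _ => e2 a b
  have e4 : ∑ a, ∑ b, (if a = b then f a b else 0) = ∑ a, f a a := by
    refine Finset.sum_congr rfl fun a _ => ?_
    simp
  have e5 : ∑ a, ∑ b, (if b < a then f a b else 0) = ∑ a, ∑ b, (if a < b then f b a else 0) :=
    Finset.sum_comm
  simp only [e1, Finset.sum_add_distrib]
  rw [e3, e4, e5]
  ring

theorem sq_two (x : ZMod 2) : x * x = x := by revert x; decide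

theorem add_self_two (x : ZMod 2) : x + x = 0 := by revert x; decide

theorem first {n : ℕ} (d w : Fin n → ZMod 2) (hD : ∑ v, d v = 0) :
    ∑ a, ∑ b, (if a < b then d a * d b * (w a + w b) else 0) = ∑ v, d v * w v := by
  have h := sum_pair (fun a b => d a * d b * w a)
  have e1 : ∀ a b : Fin n, d a * d b * (w a + w b) = d a * d b * w a + d b * d a * w b := by
    intro a b; ring
  simp only [e1]
  rw [h]
  have e2 : ∑ a, ∑ b, d a * d b * w a = 0 := by
    refine Finset.sum_eq_zero fun a _ => ?_
    have : ∀ b, d a * d b * w a = (d a * w a) * d b := fun b => by ring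
    simp only [this]
    rw [← Finset.mul_sum, hD, mul_zero]
  rw [e2, zero_sub, ← Finset.sum_neg_distrib]
  refine Finset.sum_congr rfl fun a _ => ?_
  rw [sq_two, ZMod.neg_eq_self_mod_two]

theorem second {n : ℕ} (d d' w : Fin n → ZMod 2) (hD : ∑ v, d v = 0) (hD' : ∑ v, d' v = 0) :
    ∑ a, ∑ b, (if a < b then (d a * d' b + d b * d' a) * (w a + w b) else 0) = 0 := by
  have h := sum_pair (fun a b => d a * d' b * (w a + w b))
  have e1 : ∀ a b : Fin n, (d a * d' b + d b * d' a) * (w a + w b)
      = d a * d' b * (w a + w b) + d b * d' a * (w b + w a) := by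
    intro a b; ring
  simp only [e1]
  rw [h]
  have e2 : ∑ a, d a * d' a * (w a + w a) = 0 := by
    refine Finset.sum_eq_zero fun a _ => ?_
    rw [add_self_two, mul_zero]
  have e3 : ∑ a, ∑ b, d a * d' b * (w a + w b) = 0 := by
    have e4 : ∀ a b : Fin n, d a * d' b * (w a + w b) = (d a * w a) * d' b + d a * (d' b * w b) := by
      intro a b; ring
    simp only [e4, Finset.sum_add_distrib, ← Finset.mul_sum, hD', mul_zero,
      zero_add]
    rw [← Finset.sum_mul, hD, zero_mul]
  rw [e2, e3, sub_zero]

/-- PROOF (all in characteristic 2, `x ^ 2 = x` for `x : ZMod 2`). Sums over `a < b`: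
`Σ_{a<b} d'_a d'_b (w_a + w_b) = Σ w_a d'_a (D' - d'_a) = Σ w_a d'_a`, so
`Σ d'_a w_a = Σ_{a<b} d'_a d'_b Σ_u d_u T u a b` and the same with `d, d'` exchanged;
`Σ_{a<b} (d_a d'_b + d_b d'_a) (w_a + w_b) = Σ_{a≠b} d_a d'_b (w_a + w_b) = 0`, so
`0 = Σ_{a<b} (d_a d'_b + d_b d'_a) Σ_u d_u T u a b`, and the same with `d'_u` for `d_u`.
Sum of the four: `Σ_u Σ_{a<b} T u a b * G u a b` with the symmetric
`G u a b = d_u d'_a d'_b + d'_u d_a d_b + (d_a d'_b + d_b d'_a) (d_u + d'_u)`
`= Σ_{x<y<z} (T x y z + T y x z + T z x y) G x y z = Σ_{x<y<z} (φ x y + φ x z + φ y z) G x y z`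
`= Σ_{x<y} φ x y Σ_{z ≠ x, y} G x y z = 0` (`Σ_{z ≠ x, y} d_z = d_x + d_y`, expand). -/
theorem parity {n : ℕ} (T : Fin n → Fin n → Fin n → ZMod 2) (φ : Fin n → Fin n → ZMod 2)
    (hT : ∀ u a b, T u a b = T u b a) (hT0 : ∀ u a, T u u a = 0)
    (hφ : ∀ a b, φ a b = φ b a)
    (h3 : ∀ x y z, x ≠ y → x ≠ z → y ≠ z →
      T x y z + T y x z + T z x y = φ x y + φ x z + φ y z)
    (d d' w w' : Fin n → ZMod 2) (hD : ∑ v, d v = 0) (hD' : ∑ v, d' v = 0)
    (hd : ∀ a b, a ≠ b → ∑ u, d u * T u a b = w a + w b)
    (hd' : ∀ a b, a ≠ b → ∑ u, d' u * T u a b = w' a + w' b) :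
    ∑ v, (d' v * w v + d v * w' v) = 0 := by
  set G : Fin n → Fin n → Fin n → ZMod 2 := fun u a b =>
    d u * d' a * d' b + d' u * d a * d b + (d a * d' b + d b * d' a) * (d u + d' u) with hG
  clear_value G
  have k1 := first d' w hD'
  have k2 := first d w' hD
  have k3 := second d d' w hD hD'
  have k4 := second d d' w' hD hD'
  have step1 : ∑ v, (d' v * w v + d v * w' v)
      = ∑ u, ∑ a, ∑ b, (if a < b then T u a b * G u a b else 0) := by
    rw [Finset.sum_add_distrib, ← k1, ← k2]
    have : ∑ a, ∑ b, (if a < b then d' a * d' b * (w a + w b) else 0)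
        + ∑ a, ∑ b, (if a < b then d a * d b * (w' a + w' b) else 0)
      = ∑ a, ∑ b, (if a < b then d' a * d' b * (w a + w b) else 0)
        + ∑ a, ∑ b, (if a < b then d a * d b * (w' a + w' b) else 0)
        + ∑ a, ∑ b, (if a < b then (d a * d' b + d b * d' a) * (w a + w b) else 0)
        + ∑ a, ∑ b, (if a < b then (d a * d' b + d b * d' a) * (w' a + w' b) else 0) := by
      rw [k3, k4, add_zero, add_zero]
    rw [this]
    have e : ∑ u, ∑ a, ∑ b, (if a < b then T u a b * G u a b else 0)
        = ∑ a, ∑ b, ∑ u, (if a < b then T u a b * G u a b else 0) := by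
      rw [Finset.sum_comm]
      exact Finset.sum_congr rfl fun a _ => Finset.sum_comm
    rw [e]
    simp only [← Finset.sum_add_distrib]
    refine Finset.sum_congr rfl fun a _ => Finset.sum_congr rfl fun b _ => ?_
    by_cases hab : a < b
    · simp only [if_pos hab]
      rw [← hd a b hab.ne, ← hd' a b hab.ne]
      simp only [Finset.mul_sum, ← Finset.sum_add_distrib]
      refine Finset.sum_congr rfl fun u _ => ?_
      simp only [hG]
      ring
    · simp only [if_neg hab, add_zero, Finset.sum_const_zero]
  rw [step1]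
  set F' : Fin n → Fin n → Fin n → ZMod 2 := fun u a b =>
    if u = a ∨ u = b then 0 else φ a b * G u a b with hF'
  clear_value F'
  have step2 : ∑ u, ∑ a, ∑ b, (if a < b then T u a b * G u a b else 0)
      = ∑ u, ∑ a, ∑ b, (if a < b then F' u a b else 0) := by
    rw [sum_triple (fun u a b => T u a b * G u a b) (fun u b => by simp [hT0])
      (fun u a => by simp [hT u a u, hT0]),
      sum_triple F' (fun u b => by simp [hF']) (fun u a => by simp [hF'])]
    refine Finset.sum_congr rfl fun x _ => Finset.sum_congr rfl fun y _ =>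
      Finset.sum_congr rfl fun z _ => ?_
    by_cases h : x < y ∧ y < z
    · rw [if_pos h, if_pos h]
      obtain ⟨hxy, hyz⟩ := h
      have hxz := hxy.trans hyz
      have e1 : F' x y z = φ y z * G x y z := by
        simp only [hF']; rw [if_neg]; rintro (h | h)
        · exact hxy.ne h
        · exact hxz.ne h
      have e2 : F' y x z = φ x z * G y x z := by
        simp only [hF']; rw [if_neg]; rintro (h | h)
        · exact hxy.ne' h
        · exact hyz.ne h
      have e3 : F' z x y = φ x y * G z x y := by
        simp only [hF']; rw [if_neg]; rintro (h | h)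
        · exact hxz.ne' h
        · exact hyz.ne' h
      rw [e1, e2, e3]
      have g1 : G y x z = G x y z := by simp only [hG]; ring
      have g2 : G z x y = G x y z := by simp only [hG]; ring
      rw [g1, g2]
      have := h3 x y z hxy.ne hxz.ne hyz.ne
      calc T x y z * G x y z + T y x z * G x y z + T z x y * G x y z
          = (T x y z + T y x z + T z x y) * G x y z := by ring
        _ = (φ x y + φ x z + φ y z) * G x y z := by rw [this]
        _ = _ := by ring
    · rw [if_neg h, if_neg h]
  rw [step2]
  have step3 : ∑ u, ∑ a, ∑ b, (if a < b then F' u a b else 0)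
        = ∑ a, ∑ b, ∑ u, (if a < b then F' u a b else 0) := by
    rw [Finset.sum_comm]
    exact Finset.sum_congr rfl fun a _ => Finset.sum_comm
  rw [step3]
  refine Finset.sum_eq_zero fun a _ => Finset.sum_eq_zero fun b _ => ?_
  by_cases hab : a < b
  · simp only [if_pos hab]
    have e1 : ∀ u, F' u a b = φ a b * (G u a b
        - ((if u = a then G u a b else 0) + (if u = b then G u a b else 0))) := by
      intro u
      simp only [hF']
      by_cases hua : u = a
      · subst hua
        simp [hab.ne]
      · by_cases hub : u = b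
        · subst hub
          simp [hab.ne']
        · simp [hua, hub]
    simp only [e1]
    rw [← Finset.mul_sum, Finset.sum_sub_distrib, Finset.sum_add_distrib]
    rw [Finset.sum_ite_eq' Finset.univ a (fun u => G u a b),
      Finset.sum_ite_eq' Finset.univ b (fun u => G u a b), if_pos (Finset.mem_univ a),
      if_pos (Finset.mem_univ b)]
    have e2 : ∑ u, G u a b = 0 := by
      have e4 : ∀ u, G u a b = (d' a * d' b) * d u + (d a * d b) * d' u
          + ((d a * d' b + d b * d' a) * d u + (d a * d' b + d b * d' a) * d' u) := by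
        intro u; simp only [hG]; ring
      simp only [e4, Finset.sum_add_distrib, ← Finset.mul_sum, hD, hD', mul_zero, add_zero]
    rw [e2]
    simp only [hG]
    have key : ∀ p q r s t : ZMod 2, t * (0 - (p * r * s + r * p * q + (p * s + q * r) * (p + r)
        + (q * r * s + s * p * q + (p * s + q * r) * (q + s)))) = 0 := by decide
    exact key (d a) (d b) (d' a) (d' b) (φ a b)
  · simp only [if_neg hab, Finset.sum_const_zero]

end Pool.Agent.Lib.StarCo
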