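import Pool.Agent.Lib.StarCo.Red
import Pool.Agent.Lib.StarCo.Par
import Pool.Agent.Lib.StarCo.Dims
import Pool.Agent.Lib.StarCo.Lin

/-!
# The bound
-/

set_option autoImplicit false

namespace Pool.Agent.Lib.StarCo

/-- The reductions modulo 2 of the integral points of a rational subspace. -/
def redSub {ι : Type} (U : Submodule ℚ (ι → ℚ)) : Submodule (ZMod 2) (ι → ZMod 2) where
  carrier := {x | ∃ m : ι → ℤ, (fun i => (m i : ℚ)) ∈ U ∧ ∀ i, x i = (m i : ZMod 2)}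
  add_mem' := by
    rintro x y ⟨m, hm, hx⟩ ⟨m', hm', hy⟩
    refine ⟨m + m', ?_, fun i => ?_⟩
    · have h : (fun i => ((m + m') i : ℚ)) = (fun i => (m i : ℚ)) + (fun i => (m' i : ℚ)) := by
        funext i; simp
      rw [h]; exact U.add_mem hm hm'
    · simp [hx i, hy i]
  zero_mem' := by
    refine ⟨0, ?_, fun i => by simp⟩
    have h : (fun i => (((0 : ι → ℤ) i : ℤ) : ℚ)) = (0 : ι → ℚ) := by
      funext i; simp
    rw [h]; exact U.zero_mem
  smul_mem' := by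
    rintro c x ⟨m, hm, hx⟩
    refine ⟨(c.val : ℤ) • m, ?_, fun i => ?_⟩
    · have h : (fun i => ((((c.val : ℤ) • m) i : ℤ) : ℚ))
          = ((c.val : ℤ) : ℚ) • (fun i => (m i : ℚ)) := by
        funext i; simp
      rw [h]; exact U.smul_mem _ hm
    · simp [hx i]

/-- PROOF: `dims` gives `A, B`. `R_A`, `R_B` = the sets of the reductions modulo 2 of the integral
points of `A`, `B` (subspaces; `finrank_red`). `proj` for both (`hk`: if all `x (inl v) = 0` then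
`x (inr a) + x (inr b) = 0` for `a ≠ b` by the reduced relation). The results are orthogonal: for
lifts `m, m'` the two sums `Σ m (inl v)`, `Σ m' (inl v)` are even, so half of their product is
even, and `Σ (m' m + m m')` is even by `parity`. `orth`. -/
theorem bound {n r : ℕ} (hn : 3 ≤ n) (T : Fin n → Ed n → ℕ)
    (φ : Fin n → Fin n → ZMod 2) (hφ : ∀ a b, φ a b = φ b a)
    (hT0 : ∀ v e, v ∈ e.1 → T v e = 0)
    (h3 : ∀ x y z : Fin n, ∀ (hxy : x ≠ y) (hxz : x ≠ z) (hyz : y ≠ z),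
      (T x ⟨{y, z}, Finset.card_pair hyz⟩ + T y ⟨{x, z}, Finset.card_pair hxz⟩
        + T z ⟨{x, y}, Finset.card_pair hxy⟩ : ZMod 2) = φ x y + φ x z + φ y z)
    (P Q : Fin r → Ed n → ℚ)
    (h : ∀ e f : Ed n,
      ∑ v, ((if v ∈ e.1 then (1 : ℚ) else 0) * (T v f : ℚ)
        + (if v ∈ f.1 then (1 : ℚ) else 0) * (T v e : ℚ))
        + ∑ j, (P j e * Q j f + P j f * Q j e) = 2 - ((e.1 ∩ f.1).card : ℚ)) :
    n ≤ 2 * r + 4 := by
  classical
  obtain ⟨A, B, hA, hB, hAB, hdim⟩ := dims hn (fun v e => (T v e : ℚ)) P Q h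
  have two : (2 : ZMod 2) = 0 := by decide
  -- the integral relation
  have relZ : ∀ U : Submodule ℚ (Fin n ⊕ Fin n → ℚ),
      (∀ x ∈ U, ∀ f : Ed n, ∑ v, x (Sum.inl v) * (T v f : ℚ) = ∑ a ∈ f.1, x (Sum.inr a)) →
      ∀ m : Fin n ⊕ Fin n → ℤ, (fun i => (m i : ℚ)) ∈ U → ∀ f : Ed n,
        ∑ v, ((m (Sum.inl v) : ℤ) : ZMod 2) * (T v f : ZMod 2)
          = ∑ a ∈ f.1, ((m (Sum.inr a) : ℤ) : ZMod 2) := by
    intro U hU m hm f
    have h1 := hU _ hm f
    have h2 : ∑ v, m (Sum.inl v) * (T v f : ℤ) = ∑ a ∈ f.1, m (Sum.inr a) := by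
      have h4 : ((∑ v, m (Sum.inl v) * (T v f : ℤ) : ℤ) : ℚ)
          = ((∑ a ∈ f.1, m (Sum.inr a) : ℤ) : ℚ) := by
        push_cast
        exact h1
      exact_mod_cast h4
    have h5 := congrArg (fun t : ℤ => (t : ZMod 2)) h2
    simpa using h5
  have relP : ∀ U : Submodule ℚ (Fin n ⊕ Fin n → ℚ),
      (∀ x ∈ U, ∀ f : Ed n, ∑ v, x (Sum.inl v) * (T v f : ℚ) = ∑ a ∈ f.1, x (Sum.inr a)) →
      ∀ m : Fin n ⊕ Fin n → ℤ, (fun i => (m i : ℚ)) ∈ U → ∀ a b : Fin n, ∀ hab : a ≠ b,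
        ∑ v, ((m (Sum.inl v) : ℤ) : ZMod 2) * (T v ⟨{a, b}, Finset.card_pair hab⟩ : ZMod 2)
          = ((m (Sum.inr a) : ℤ) : ZMod 2) + ((m (Sum.inr b) : ℤ) : ZMod 2) := by
    intro U hU m hm a b hab
    rw [relZ U hU m hm ⟨{a, b}, Finset.card_pair hab⟩]
    exact Finset.sum_pair hab
  have hkU : ∀ U : Submodule ℚ (Fin n ⊕ Fin n → ℚ),
      (∀ x ∈ U, ∀ f : Ed n, ∑ v, x (Sum.inl v) * (T v f : ℚ) = ∑ a ∈ f.1, x (Sum.inr a)) →
      ∀ x ∈ redSub U, (∀ v, x (Sum.inl v) = 0) → ∀ a b, x (Sum.inr a) = x (Sum.inr b) := by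
    rintro U hU x ⟨m, hm, hx⟩ hx0 a b
    by_cases hab : a = b
    · rw [hab]
    · have h1 := relP U hU m hm a b hab
      have h2 : ∑ v, ((m (Sum.inl v) : ℤ) : ZMod 2) * (T v ⟨{a, b}, Finset.card_pair hab⟩ : ZMod 2)
          = 0 := by
        apply Finset.sum_eq_zero
        intro v _
        rw [← hx (Sum.inl v), hx0 v, zero_mul]
      rw [h2, ← hx (Sum.inr a), ← hx (Sum.inr b)] at h1
      have h6 : x (Sum.inr a) = - x (Sum.inr b) := by
        rw [eq_neg_iff_add_eq_zero]; exact h1.symm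
      rw [h6]
      exact CharTwo.neg_eq _
  obtain ⟨C, hC, hCd⟩ := proj (redSub A) (hkU A hA)
  obtain ⟨C', hC', hCd'⟩ := proj (redSub B) (hkU B hB)
  have hrA : Module.finrank ℚ A ≤ Module.finrank (ZMod 2) (redSub A) :=
    finrank_red A (redSub A) (fun m hm => ⟨m, hm, fun _ => rfl⟩)
  have hrB : Module.finrank ℚ B ≤ Module.finrank (ZMod 2) (redSub B) :=
    finrank_red B (redSub B) (fun m hm => ⟨m, hm, fun _ => rfl⟩)
  -- the ternary function on points
  let T' : Fin n → Fin n → Fin n → ZMod 2 := fun u a b =>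
    if hab : a ≠ b then (T u ⟨{a, b}, Finset.card_pair hab⟩ : ZMod 2) else 0
  have hT'ne : ∀ u a b (hab : a ≠ b), T' u a b = (T u ⟨{a, b}, Finset.card_pair hab⟩ : ZMod 2) := by
    intro u a b hab
    simp only [T', dif_pos hab]
  have hT's : ∀ u a b, T' u a b = T' u b a := by
    intro u a b
    by_cases hab : a = b
    · rw [hab]
    · rw [hT'ne u a b hab, hT'ne u b a (Ne.symm hab)]
      have : (⟨{a, b}, Finset.card_pair hab⟩ : Ed n) = ⟨{b, a}, Finset.card_pair (Ne.symm hab)⟩ :=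
        Subtype.ext (Finset.pair_comm a b)
      rw [this]
  have hT'0 : ∀ u a, T' u u a = 0 := by
    intro u a
    by_cases hua : u = a
    · simp only [T', hua, ne_eq, not_true_eq_false, dif_neg, not_false_eq_true]
    · rw [hT'ne u u a hua, hT0 u _ (by simp)]
      simp
  have hT'3 : ∀ x y z, x ≠ y → x ≠ z → y ≠ z →
      T' x y z + T' y x z + T' z x y = φ x y + φ x z + φ y z := by
    intro x y z hxy hxz hyz
    rw [hT'ne x y z hyz, hT'ne y x z hxz, hT'ne z x y hxy]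
    exact h3 x y z hxy hxz hyz
  have horth : ∀ c ∈ C, ∀ c' ∈ C', ∑ v, c v * c' v = 0 := by
    intro c hc c' hc'
    obtain ⟨x, ⟨m, hm, hx⟩, hxc, hx0⟩ := hC c hc
    obtain ⟨y, ⟨m', hm', hy⟩, hyc, hy0⟩ := hC' c' hc'
    have hs : ∑ v, ((m (Sum.inl v) : ℤ) : ZMod 2) = 0 := by
      rw [← hx0]; exact Finset.sum_congr rfl (fun v _ => (hx _).symm)
    have hs' : ∑ v, ((m' (Sum.inl v) : ℤ) : ZMod 2) = 0 := by
      rw [← hy0]; exact Finset.sum_congr rfl (fun v _ => (hy _).symm)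
    obtain ⟨k, hk⟩ : (2 : ℤ) ∣ ∑ v, m (Sum.inl v) := by
      have h8 : ((∑ v, m (Sum.inl v) : ℤ) : ZMod 2) = 0 := by push_cast; exact hs
      exact_mod_cast (ZMod.intCast_zmod_eq_zero_iff_dvd _ 2).mp h8
    obtain ⟨k', hk'⟩ : (2 : ℤ) ∣ ∑ v, m' (Sum.inl v) := by
      have h8 : ((∑ v, m' (Sum.inl v) : ℤ) : ZMod 2) = 0 := by push_cast; exact hs'
      exact_mod_cast (ZMod.intCast_zmod_eq_zero_iff_dvd _ 2).mp h8
    have hpar := parity T' φ hT's hT'0 hφ hT'3
      (fun v => ((m (Sum.inl v) : ℤ) : ZMod 2)) (fun v => ((m' (Sum.inl v) : ℤ) : ZMod 2))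
      (fun v => ((m (Sum.inr v) : ℤ) : ZMod 2)) (fun v => ((m' (Sum.inr v) : ℤ) : ZMod 2))
      hs hs'
      (by
        intro a b hab
        have h1 := relP A hA m hm a b hab
        rw [← h1]
        exact Finset.sum_congr rfl (fun v _ => by rw [hT'ne v a b hab]))
      (by
        intro a b hab
        have h1 := relP B hB m' hm' a b hab
        rw [← h1]
        exact Finset.sum_congr rfl (fun v _ => by rw [hT'ne v a b hab]))
    have hpair := hAB _ hm _ hm'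
    have hpairZ : ∑ v, m (Sum.inl v) * m' (Sum.inl v)
        + ∑ v, (m' (Sum.inl v) * m (Sum.inr v) + m (Sum.inl v) * m' (Sum.inr v))
        = 2 * (k * k') := by
      have h9 : ((∑ v, m (Sum.inl v) * m' (Sum.inl v)
        + ∑ v, (m' (Sum.inl v) * m (Sum.inr v) + m (Sum.inl v) * m' (Sum.inr v)) : ℤ) : ℚ)
          = ((2 * (k * k') : ℤ) : ℚ) := by
        have hkQ : ∑ v, (m (Sum.inl v) : ℚ) = 2 * (k : ℚ) := by exact_mod_cast hk
        have hkQ' : ∑ v, (m' (Sum.inl v) : ℚ) = 2 * (k' : ℚ) := by exact_mod_cast hk'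
        rw [hkQ, hkQ'] at hpair
        push_cast
        rw [hpair]; ring
      exact_mod_cast h9
    have h10 := congrArg (fun t : ℤ => (t : ZMod 2)) hpairZ
    push_cast at h10
    rw [hpar, two, zero_mul, add_zero] at h10
    calc ∑ v, c v * c' v
        = ∑ v, ((m (Sum.inl v) : ℤ) : ZMod 2) * ((m' (Sum.inl v) : ℤ) : ZMod 2) := by
          apply Finset.sum_congr rfl
          intro v _
          rw [← hxc v, ← hyc v, hx, hy]
      _ = 0 := h10
  have hfin := orth C C' horth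
  omega

end Pool.Agent.Lib.StarCo
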