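import Mathlib
import Pool.Agent.Lib.CecStar.Lattice

/-!
# Reduction modulo 2 of the integral points of a rational subspace
-/

set_option autoImplicit false

namespace Pool.Agent.Lib.StarCo

/-- From `CecStar.finrank_le_mod_two`. -/
theorem finrank_red {ι : Type} [Fintype ι] (U : Submodule ℚ (ι → ℚ))
    (R : Submodule (ZMod 2) (ι → ZMod 2))
    (hR : ∀ m : ι → ℤ, (fun i => (m i : ℚ)) ∈ U → (fun i => (m i : ZMod 2)) ∈ R) :
    Module.finrank ℚ U ≤ Module.finrank (ZMod 2) R := by
  refine (Pool.Agent.Lib.CecStar.finrank_le_mod_two U).trans (Submodule.finrank_mono ?_)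
  rw [Submodule.span_le]
  rintro z ⟨a, ha, rfl⟩
  exact hR a ha

end Pool.Agent.Lib.StarCo
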