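import Mathlib
import Pool.Agent.Results.MP_cec33a_co.ThreeHalves

/-!
# The coordinates other than the star coordinates
-/

set_option autoImplicit false

namespace Pool.Agent.Lib.StarCo

open Pool.Agent.Results.MP_cec33a_co.ThreeHalves (IsAddressing triangular Sep)

/-- the edges of the complete graph on `Fin n` -/
abbrev Ed (n : ℕ) : Type := {s : Finset (Fin n) // s.card = 2}

/-- The distance of two edges is `2 - |e ∩ f|`. -/
theorem dist_add_card {n : ℕ} (u v : Ed n) :
    (triangular n).dist u v + (u.1 ∩ v.1).card = 2 := by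
  obtain ⟨a, b, hab, hs, h1, h2⟩ :=
    Pool.Agent.Results.MP_cec33a_co.ThreeHalves.exists_pair u
  obtain ⟨c, d, hcd, ht, h3, h4⟩ :=
    Pool.Agent.Results.MP_cec33a_co.ThreeHalves.exists_pair v
  have hab' : a ≠ b := fun h => by rw [h] at hab; exact lt_irrefl _ hab
  have hcd' : c ≠ d := fun h => by rw [h] at hcd; exact lt_irrefl _ hcd
  rw [Pool.Agent.Results.MP_cec33a_co.ThreeHalves.dist_eq, h1, h2, h3, h4, hs, ht,
    Pool.Agent.Results.MP_cec33a_co.ThreeHalves.inter_pair_card a b c d hab' hcd']
  unfold Pool.Agent.Results.MP_cec33a_co.ThreeHalves.D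
  simp only [Fin.ext_iff]
  split_ifs <;> omega

/-- A sum over all coordinates, split along an injective map. -/
theorem sum_split {n N : ℕ} (i : Fin n → Fin N) (hinj : Function.Injective i) :
    ∃ ψ : Fin (N - n) → Fin N, ∀ F : Fin N → ℚ,
      ∑ c, F c = ∑ v, F (i v) + ∑ j, F (ψ j) := by
  classical
  have hcard : (Finset.univ \ Finset.image i Finset.univ).card = N - n := by
    rw [Finset.card_sdiff_of_subset (Finset.subset_univ _), Finset.card_image_of_injective _ hinj,
      Finset.card_univ, Finset.card_univ, Fintype.card_fin, Fintype.card_fin]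
  refine ⟨fun j => ((Finset.equivFinOfCardEq hcard).symm j : Fin N), fun F => ?_⟩
  rw [← Finset.sum_sdiff (Finset.subset_univ (Finset.image i Finset.univ)),
    Finset.sum_image (fun a _ b _ h => hinj h), add_comm]
  congr 1
  rw [← Finset.sum_coe_sort]
  exact ((Finset.equivFinOfCardEq hcard).symm.sum_comp
    (fun c => F (c : Fin N))).symm

/-- PROOF: `i` is injective (the stars of two points differ, `4 ≤ n`), so the other coordinates
are `N - n` many (index them by an `Equiv` with `Fin (N - n)`); `P j e`, `Q j e` = 1 if the symbol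
of `e` in the `j`-th other coordinate is `some false`, `some true`. `Sep x y` is
`P x * Q y + P y * Q x`; the distance of `e` and `f` is `2 - |e ∩ f|`
(`LogLowerBound.dist_add : dist + (e ∩ f).card = 2`). -/
theorem setup {n N : ℕ} (hn : 4 ≤ n) (w : Ed n → Fin N → Option Bool)
    (hw : IsAddressing (triangular n) N w) (i : Fin n → Fin N)
    (hi : ∀ v e, w e (i v) = some false ↔ v ∈ e.1) :
    n ≤ N ∧ ∃ P Q : Fin (N - n) → Ed n → ℚ, ∀ e f : Ed n,
      ∑ v, ((if v ∈ e.1 then (1 : ℚ) else 0) * (if w f (i v) = some true then 1 else 0)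
        + (if v ∈ f.1 then (1 : ℚ) else 0) * (if w e (i v) = some true then 1 else 0))
        + ∑ j, (P j e * Q j f + P j f * Q j e) = 2 - ((e.1 ∩ f.1).card : ℚ) := by
  classical
  have hinj : Function.Injective i := by
    intro u v huv
    by_contra hne
    obtain ⟨x, hx⟩ : ∃ x : Fin n, x ∉ ({u, v} : Finset (Fin n)) := by
      by_contra hall
      push Not at hall
      have h1 : (Finset.univ : Finset (Fin n)) ⊆ {u, v} := fun x _ => hall x
      have h2 := Finset.card_le_card h1
      rw [Finset.card_univ, Fintype.card_fin] at h2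
      have h3 : ({u, v} : Finset (Fin n)).card ≤ 2 := Finset.card_le_two
      omega
    rw [Finset.mem_insert, Finset.mem_singleton, not_or] at hx
    have hux : u ≠ x := fun h => hx.1 h.symm
    have h1 := hi u ⟨{u, x}, Finset.card_pair hux⟩
    have h2 := hi v ⟨{u, x}, Finset.card_pair hux⟩
    rw [huv] at h1
    have h3 : v ∈ ({u, x} : Finset (Fin n)) := (h1.symm.trans h2).1 (Finset.mem_insert_self _ _)
    rw [Finset.mem_insert, Finset.mem_singleton] at h3
    rcases h3 with h | h
    · exact hne h.symm
    · exact hx.2 h.symm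
  refine ⟨by simpa using Fintype.card_le_of_injective i hinj, ?_⟩
  obtain ⟨ψ, hψ⟩ := sum_split i hinj
  refine ⟨fun j e => if w e (ψ j) = some false then 1 else 0,
    fun j e => if w e (ψ j) = some true then 1 else 0, fun e f => ?_⟩
  have hF := hψ (fun c => (if w e c = some false then (1 : ℚ) else 0) *
    (if w f c = some true then 1 else 0) + (if w f c = some false then (1 : ℚ) else 0) *
    (if w e c = some true then 1 else 0))
  have hstar : ∀ v, (if w e (i v) = some false then (1 : ℚ) else 0) = if v ∈ e.1 then 1 else 0 :=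
    fun v => by simp only [hi v e]
  have hstar' : ∀ v, (if w f (i v) = some false then (1 : ℚ) else 0) = if v ∈ f.1 then 1 else 0 :=
    fun v => by simp only [hi v f]
  simp only [hstar, hstar'] at hF
  rw [← hF]
  have hd : ((triangular n).dist e f : ℚ) + ((e.1 ∩ f.1).card : ℚ) = 2 := by
    exact_mod_cast dist_add_card e f
  rw [hw e f, Finset.card_filter] at hd
  push_cast at hd
  rw [← hd, add_sub_cancel_right]
  refine Finset.sum_congr rfl fun c _ => ?_
  unfold Pool.Agent.Results.MP_cec33a_co.ThreeHalves.Sep
  rcases w e c with _ | _ | _ <;> rcases w f c with _ | _ | _ <;> simp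

end Pool.Agent.Lib.StarCo
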